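import Pool.Agent.H406.Poly

/-!
# Horrocks' conjecture in five variables for cyclic modules and for modules with one cogenerator

Let `k` be a field of characteristic different from two (for instance `ℚ`), `S = k[X_1, …, X_5]`
and `M ≠ 0` a finitely generated `S`-module on which the variables are nilpotent (that is, a module
of finite length supported at the origin; for instance any graded module of finite length, where
the variables may have arbitrary positive degrees).  Let `F` be a finite resolution of `M` by
finite free modules, for instance the minimal graded one, whose ranks are the Betti numbers.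

If `M` is cyclic (`β_0 = 1`), or if `F` has length five and `F_5` has rank one (`β_5 = 1`), then
`binom 5 i ≤ rank F_i` for all `i`.

The gradings play no role.  The proof is in the modules `Pool.Agent.H406.*`.
-/

set_option autoImplicit false

universe u

open MvPolynomial

namespace Pool.Agent.Results.MP_e2ce73_al.FiveVariables

theorem result (k : Type u) [Field k] (h2 : (2 : k) ≠ 0)
    (M : Type u) [AddCommGroup M] [Module (MvPolynomial (Fin 5) k) M]
    [Module.Finite (MvPolynomial (Fin 5) k) M] [Nontrivial M]
    (hnil : ∀ j : Fin 5, ∃ N : ℕ, ∀ x : M, (X j : MvPolynomial (Fin 5) k) ^ N • x = 0)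
    -- a finite resolution by finite free modules
    (F : ℕ → Type u) [∀ i, AddCommGroup (F i)] [∀ i, Module (MvPolynomial (Fin 5) k) (F i)]
    [∀ i, Module.Free (MvPolynomial (Fin 5) k) (F i)]
    [∀ i, Module.Finite (MvPolynomial (Fin 5) k) (F i)]
    (d : ∀ i, F (i + 1) →ₗ[MvPolynomial (Fin 5) k] F i)
    (ε : F 0 →ₗ[MvPolynomial (Fin 5) k] M) (hε : Function.Surjective ε)
    (hd0 : LinearMap.range (d 0) = LinearMap.ker ε)
    (hd : ∀ i, LinearMap.range (d (i + 1)) = LinearMap.ker (d i))
    (n : ℕ) (hn : ∀ i, n < i → Subsingleton (F i))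
    -- `M` is cyclic, or the resolution has length five and last rank one
    (hM : (∃ m : M, Submodule.span (MvPolynomial (Fin 5) k) {m} = ⊤) ∨
      (n = 5 ∧ Module.finrank (MvPolynomial (Fin 5) k) (F 5) = 1)) (i : ℕ) :
    (5 : ℕ).choose i ≤ Module.finrank (MvPolynomial (Fin 5) k) (F i) := by
  obtain ⟨hc, hq⟩ := Pool.Agent.H406.ann_height (m := 5) (M := M) hnil
  obtain ⟨rs, hlen, hmem, hreg, -⟩ := Pool.Agent.H406.org_CM k 5
  have hrank : ∀ i, Module.rankAtStalk (F i) (Pool.Agent.H406.orgPt k 5) =
      Module.finrank (MvPolynomial (Fin 5) k) (F i) := fun i => by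
    rw [Module.rankAtStalk_eq_finrank_of_free]; rfl
  have htwo : IsUnit (2 : Localization.AtPrime (Pool.Agent.H406.orgPt k 5).asIdeal) := by
    have h1 : IsUnit (algebraMap k (MvPolynomial (Fin 5) k) 2) := (IsUnit.mk0 2 h2).map _
    have h3 := h1.map (algebraMap (MvPolynomial (Fin 5) k)
      (Localization.AtPrime (Pool.Agent.H406.orgPt k 5).asIdeal))
    rwa [map_ofNat, map_ofNat] at h3
  have key := Pool.Agent.H406.global_five F d ε hε hd0 hd hn hc _ hq
    (Pool.Agent.H406.org_height k 5) ⟨rs, hlen, hmem, hreg⟩ htwo
  rw [← hrank]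
  refine key ?_ i
  obtain h | ⟨h5, hr⟩ := hM
  · exact Or.inl (Pool.Agent.H406.loc_cyclic _ h)
  · refine Or.inr ⟨fun i hi => hn i (by omega), ?_⟩
    rw [hrank]; exact hr

end Pool.Agent.Results.MP_e2ce73_al.FiveVariables
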