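import Pool.Agent.H406.Pack8
import Pool.Agent.H406.Poly

/-!
# Betti numbers of Gorenstein algebras of codimension five, over any field

Let `k` be any field, of any characteristic, `S = k[X_1, …, X_5]` and `M ≠ 0` a cyclic `S`-module
on which the variables are nilpotent (for instance a graded quotient of `S` of finite length, where
the variables may have arbitrary positive degrees).  Let `F` be a resolution of `M` of length
at most five by finite free modules, for instance the minimal graded one, whose ranks are the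
Betti numbers, and suppose that `F_5` has rank one; for the minimal resolution this says that
`M = S/I` is Gorenstein.

Then the ranks of the syzygies of `M` are at least the ranks `1, 4, 6, 4, 1` of those of the
Koszul complex:

* `rank F_1 - rank F_0 ≥ 4`;
* `rank F_2 - rank F_1 + rank F_0 ≥ 6`, that is, `β_2 ≥ β_1 + 5`;
* `rank F_4 - rank F_5 ≥ 4`;
* `rank F_3 - rank F_4 + rank F_5 ≥ 6`, that is, `β_3 ≥ β_4 + 5`;

in particular `binom 5 i ≤ rank F_i` for all `i`.

The gradings play no role.  The proof is in the modules `Pool.Agent.H406.*`.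
-/

set_option autoImplicit false

universe u

open MvPolynomial

namespace Pool.Agent.Results.MP_e2ce73_al.GorensteinFive

theorem result (k : Type u) [Field k]
    (M : Type u) [AddCommGroup M] [Module (MvPolynomial (Fin 5) k) M] [Nontrivial M]
    -- `M` is cyclic
    (hcyc : ∃ m : M, Submodule.span (MvPolynomial (Fin 5) k) {m} = ⊤)
    (hnil : ∀ j : Fin 5, ∃ N : ℕ, ∀ x : M, (X j : MvPolynomial (Fin 5) k) ^ N • x = 0)
    -- a resolution by finite free modules, of length at most five and with last rank one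
    (F : ℕ → Type u) [∀ i, AddCommGroup (F i)] [∀ i, Module (MvPolynomial (Fin 5) k) (F i)]
    [∀ i, Module.Free (MvPolynomial (Fin 5) k) (F i)]
    [∀ i, Module.Finite (MvPolynomial (Fin 5) k) (F i)]
    (d : ∀ i, F (i + 1) →ₗ[MvPolynomial (Fin 5) k] F i)
    (ε : F 0 →ₗ[MvPolynomial (Fin 5) k] M) (hε : Function.Surjective ε)
    (hd0 : LinearMap.range (d 0) = LinearMap.ker ε)
    (hd : ∀ i, LinearMap.range (d (i + 1)) = LinearMap.ker (d i))
    (h5 : ∀ i, 5 < i → Subsingleton (F i))
    (hlast : Module.finrank (MvPolynomial (Fin 5) k) (F 5) = 1) :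
    let β : ℕ → ℕ := fun i => Module.finrank (MvPolynomial (Fin 5) k) (F i)
    β 0 + 4 ≤ β 1 ∧ β 1 + 6 ≤ β 0 + β 2 ∧ β 4 + 6 ≤ β 5 + β 3 ∧ β 5 + 4 ≤ β 4 ∧
      ∀ i, (5 : ℕ).choose i ≤ β i := by
  have hfin : Module.Finite (MvPolynomial (Fin 5) k) M := by
    obtain ⟨m, hm⟩ := hcyc
    exact ⟨⟨{m}, by simpa using hm⟩⟩
  obtain ⟨hc, hq⟩ := Pool.Agent.H406.ann_height (m := 5) (M := M) hnil
  obtain ⟨rs, hlen, hmem, hreg, -⟩ := Pool.Agent.H406.org_CM k 5
  have hrank : ∀ i, Module.rankAtStalk (F i) (Pool.Agent.H406.orgPt k 5) =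
      Module.finrank (MvPolynomial (Fin 5) k) (F i) := fun i => by
    rw [Module.rankAtStalk_eq_finrank_of_free]; rfl
  have key := Pool.Agent.H406.global_gor5 F d ε hε hd0 hd (h5 6 (by omega)) hc _ hq
    (Pool.Agent.H406.org_height k 5) ⟨rs, hlen, hmem, hreg⟩ (Pool.Agent.H406.loc_cyclic _ hcyc)
    (by rw [hrank]; exact hlast)
  simp only [hrank] at key
  obtain ⟨a0, a1, a2, a3, a4⟩ := key
  intro β
  have b0 : 1 ≤ β 0 := a0
  have b1 : β 0 + 4 ≤ β 1 := a1
  have b2 : β 1 + 6 ≤ β 0 + β 2 := a2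
  have b3 : β 4 + 6 ≤ β 5 + β 3 := a3
  have b4 : β 5 + 4 ≤ β 4 := a4
  have b5 : β 5 = 1 := hlast
  refine ⟨b1, b2, b3, b4, fun i => ?_⟩
  match i with
  | 0 => simpa using b0
  | 1 => simp only [Nat.choose_one_right]; omega
  | 2 =>
    have h : (5 : ℕ).choose 2 = 10 := by decide
    rw [h]; omega
  | 3 =>
    have h : (5 : ℕ).choose 3 = 10 := by decide
    rw [h]; omega
  | 4 =>
    have h : (5 : ℕ).choose 4 = 5 := by decide
    rw [h]; omega
  | 5 =>
    have h : (5 : ℕ).choose 5 = 1 := by decide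
    rw [h]; omega
  | (i + 6) =>
    rw [Nat.choose_eq_zero_of_lt (by omega)]
    exact Nat.zero_le _

end Pool.Agent.Results.MP_e2ce73_al.GorensteinFive
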