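import Pool.Agent.H406.Poly

/-!
# A linear bound for the rank of the third syzygy of cyclic modules, and its dual

Let `k` be a field, `m ≥ 3` with `(m - 3)! ≠ 0` in `k` (for instance `k = ℚ`), let
`S = k[X_1, …, X_m]` and let `M ≠ 0` be a finitely generated `S`-module on which the variables are
nilpotent (for instance any graded module of finite length, the variables having any positive
degrees).  Let `F` be a resolution of `M` by finite free modules.

* If `M` is cyclic then `rank F_2 ≥ rank F_1 - rank F_0 + 2 m - 5`; in terms of Betti numbers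
  `β_2 ≥ β_1 + 2 m - 6`.
* If `F` has length `m` and `F_m` has rank one (`β_m = 1`), then
  `rank F_(m-2) ≥ rank F_(m-1) + 2 m - 6`; in terms of Betti numbers
  `β_(m-2) ≥ β_(m-1) + 2 m - 6`.

The gradings play no role.  The proof is in the modules `Pool.Agent.H406.*`.
-/

set_option autoImplicit false

universe u

open MvPolynomial

namespace Pool.Agent.Results.MP_e2ce73_al.SecondBettiNumber

theorem result (k : Type u) [Field k] (m : ℕ) (hm : 3 ≤ m) (hfac : ((m - 3).factorial : k) ≠ 0)
    (M : Type u) [AddCommGroup M] [Module (MvPolynomial (Fin m) k) M]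
    [Module.Finite (MvPolynomial (Fin m) k) M] [Nontrivial M]
    (hnil : ∀ j : Fin m, ∃ N : ℕ, ∀ x : M, (X j : MvPolynomial (Fin m) k) ^ N • x = 0)
    -- a resolution by finite free modules
    (F : ℕ → Type u) [∀ i, AddCommGroup (F i)] [∀ i, Module (MvPolynomial (Fin m) k) (F i)]
    [∀ i, Module.Free (MvPolynomial (Fin m) k) (F i)]
    [∀ i, Module.Finite (MvPolynomial (Fin m) k) (F i)]
    (d : ∀ i, F (i + 1) →ₗ[MvPolynomial (Fin m) k] F i)
    (ε : F 0 →ₗ[MvPolynomial (Fin m) k] M) (hε : Function.Surjective ε)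
    (hd0 : LinearMap.range (d 0) = LinearMap.ker ε)
    (hd : ∀ i, LinearMap.range (d (i + 1)) = LinearMap.ker (d i)) :
    ((∃ m₀ : M, Submodule.span (MvPolynomial (Fin m) k) {m₀} = ⊤) →
      Module.finrank (MvPolynomial (Fin m) k) (F 1) + (2 * m - 5) ≤
        Module.finrank (MvPolynomial (Fin m) k) (F 0) +
          Module.finrank (MvPolynomial (Fin m) k) (F 2)) ∧
    (Subsingleton (F (m + 1)) → Module.finrank (MvPolynomial (Fin m) k) (F m) = 1 →
      Module.finrank (MvPolynomial (Fin m) k) (F (m - 1)) + (2 * m - 6) ≤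
        Module.finrank (MvPolynomial (Fin m) k) (F (m - 2))) := by
  obtain ⟨hc, hq⟩ := Pool.Agent.H406.ann_height (m := m) (M := M) hnil
  obtain ⟨rs, hlen, hmem, hreg, -⟩ := Pool.Agent.H406.org_CM k m
  have hrank : ∀ i, Module.rankAtStalk (F i) (Pool.Agent.H406.orgPt k m) =
      Module.finrank (MvPolynomial (Fin m) k) (F i) := fun i => by
    rw [Module.rankAtStalk_eq_finrank_of_free]; rfl
  have hfac' : IsUnit (((m - 3).factorial : ℕ) :
      Localization.AtPrime (Pool.Agent.H406.orgPt k m).asIdeal) := by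
    have h1 : IsUnit (algebraMap k (MvPolynomial (Fin m) k) ((m - 3).factorial : ℕ)) :=
      (IsUnit.mk0 _ hfac).map _
    have h3 := h1.map (algebraMap (MvPolynomial (Fin m) k)
      (Localization.AtPrime (Pool.Agent.H406.orgPt k m).asIdeal))
    rwa [map_natCast, map_natCast] at h3
  refine ⟨fun h => ?_, fun h hr => ?_⟩
  · have key := Pool.Agent.H406.global_third F d ε hε hd0 hd hm hc _ hq
      (Pool.Agent.H406.org_height k m) ⟨rs, hlen, hmem, hreg⟩ hfac'
      (Pool.Agent.H406.loc_cyclic _ h)
    rw [hrank, hrank, hrank] at key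
    exact key
  · have key := Pool.Agent.H406.global_third_dual F d ε hε hd0 hd hm hc _ hq
      (Pool.Agent.H406.org_height k m) ⟨rs, hlen, hmem, hreg⟩ hfac' h (by rw [hrank]; exact hr)
    rw [hrank, hrank] at key
    have h6 : 2 * m - 6 = 2 * (m - 3) := by omega
    rw [h6]
    exact key

end Pool.Agent.Results.MP_e2ce73_al.SecondBettiNumber
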